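import Pool.Agent.TH636.BC.Main

set_option autoImplicit false

/-!
# Short proofs of finite consistency statements with bounded quantifier complexity

The formulas, the Hilbert calculus, the strings, the numerals, the consistency statements and the
classes `Σ_k` are defined in `Pool.Agent.TH636.BC.Defs` (with `Pool.Agent.TH672.Fm`).
-/

namespace Pool.Agent.Results.MP_8ec908_lc.BoundedComplexityProofs

open Pool.Agent.TH636.BC

/-- There are arithmetical formulas `P` that numerate bounded provability in Robinson arithmetic,
and for each of them there are a consistent finite list `A` of sentences that contains the axioms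
of Robinson arithmetic, a number `k` and a polynomial `p`, such that for every `n` the sentence
`Con_A (n)` has a proof from `A` of length at most `p n` in which every formula is `Σ_k`. -/
theorem result : (∃ P, Numerates P) ∧ ∀ P, Numerates P →
    ∃ A : List Fml, (∀ φ ∈ robinson, φ ∈ A) ∧ (∀ φ ∈ A, φ.Closed) ∧
      (∀ m, ¬ Proves A m .bot) ∧
      ∃ (k : ℕ) (p : Polynomial ℕ), ∀ n, ∃ π, IsProof A (conAt P A n :: π) ∧
        (strs (conAt P A n :: π)).length ≤ p.eval n ∧ ∀ ψ ∈ conAt P A n :: π, Cx true k ψ :=
  main

end Pool.Agent.Results.MP_8ec908_lc.BoundedComplexityProofs
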